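import Pool.Agent.helper40.SU.SpecA

set_option autoImplicit false

open Finset

namespace Pool.Agent.SU

theorem HAS (hTTT : TTT_stmt) (hSPL : SPL_stmt) (hSQA : SQA_stmt) (hSQB : SQB_stmt) : HAS_stmt := by
  intro p hpF hp b c hc hD
  have hpp : p.Prime := hpF.out
  classical
  haveI : Fintype (GaloisField p 2) := Fintype.ofFinite _
  set K := GaloisField p 2 with hKdef
  have hcard : Fintype.card K = p ^ 2 := by
    rw [← Nat.card_eq_fintype_card]
    exact GaloisField.card p 2 (by norm_num)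
  haveI : CharP K p := charP_of_injective_algebraMap (algebraMap (ZMod p) K).injective p
  have hcharK : ringChar K ≠ 2 := by
    rw [ringChar.eq K p]; exact hp
  have hcharF : ringChar (ZMod p) ≠ 2 := by
    rw [ringChar.eq (ZMod p) p]; exact hp
  set φ := algebraMap (ZMod p) K with hφ
  have h2 : (2 : K) ≠ 0 := Ring.two_ne_zero hcharK
  have hpo : p % 2 = 1 := by
    rcases hpp.eq_two_or_odd with h | h
    · exact absurd h hp
    · exact h
  have hp3 : 3 ≤ p := by
    have := hpp.two_le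
    omega
  have hsq : IsSquare (φ (b ^ 2 - 4 * c)) := by
    rw [FiniteField.isSquare_iff hcharK]
    · rw [hcard]
      have e : p ^ 2 / 2 = (p - 1) * ((p + 1) / 2) := by
        obtain ⟨k, hk⟩ : ∃ k, p = 2 * k + 1 := ⟨p / 2, by omega⟩
        have e1 : (p + 1) / 2 = k + 1 := by omega
        have e2 : p - 1 = 2 * k := by omega
        rw [e1, e2]
        have e3 : p ^ 2 = 2 * (2 * k * (k + 1)) + 1 := by rw [hk]; ring
        rw [e3]
        omega
      rw [e, pow_mul, ← map_pow, ZMod.pow_card_sub_one_eq_one hD, map_one, one_pow]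
    · intro h
      apply hD
      apply φ.injective
      rw [h, map_zero]
  obtain ⟨d, hd⟩ := hsq
  have hroot : ((- φ b + d) / 2) ^ 2 + φ b * ((- φ b + d) / 2) + φ c = 0 := by
    have h4 : (4 : K) ≠ 0 := by
      have : (4 : K) = 2 * 2 := by norm_num
      rw [this]; exact mul_ne_zero h2 h2
    have hd2 : d * d = φ b ^ 2 - 4 * φ c := by
      rw [← hd, map_sub, map_pow, map_mul]
      have : φ 4 = 4 := map_ofNat φ 4
      rw [this]
    have hr : (2 : K) * ((- φ b + d) / 2) = - φ b + d := mul_div_cancel₀ _ h2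
    have e : (4 : K) * (((- φ b + d) / 2) ^ 2 + φ b * ((- φ b + d) / 2) + φ c) = 4 * 0 := by
      have e1 : (4 : K) * (((- φ b + d) / 2) ^ 2 + φ b * ((- φ b + d) / 2) + φ c)
          = (2 * ((- φ b + d) / 2)) ^ 2 + 2 * φ b * (2 * ((- φ b + d) / 2)) + 4 * φ c := by ring
      rw [e1, hr]
      linear_combination hd2
    exact mul_left_cancel₀ h4 e
  have hcK : φ c ≠ 0 := by
    intro h
    apply hc
    apply φ.injective
    rw [h, map_zero]
  have hK := hSPL K hcharK (φ b) (φ c) ((- φ b + d) / 2) hcK hroot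
  have hA := hSQA (ZMod p) hcharF b c
  have hB := hSQB p K hp hcard b c
  have hT := hTTT (ZMod p) hcharF b c hc hD
  have hsum : S3 (ZMod p) b c ^ 2 + S3 K (φ b) (φ c) = 2 * p := by
    rw [hA, hB, ← Finset.sum_add_distrib]
    simp_rw [← Finset.sum_add_distrib]
    have e : ∀ t s : ZMod p, (1 + quadraticChar (ZMod p) (s ^ 2 - 4 * t)) * quadraticChar (ZMod p) (Ph b c s t)
        + (1 - quadraticChar (ZMod p) (s ^ 2 - 4 * t)) * quadraticChar (ZMod p) (Ph b c s t)
        = 2 * quadraticChar (ZMod p) (Ph b c s t) := by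
      intro t s; ring
    simp_rw [e, ← Finset.mul_sum]
    rw [hT, ZMod.card]
  have hsumR : ((S3 (ZMod p) b c : ℤ) : ℝ) ^ 2 + ((S3 K (φ b) (φ c) : ℤ) : ℝ) = 2 * p := by
    exact_mod_cast hsum
  have hpR : (0 : ℝ) ≤ (p : ℝ) := Nat.cast_nonneg p
  have hKb : |((S3 K (φ b) (φ c) : ℤ) : ℝ)| ≤ 2 * p := by
    rw [hcard] at hK
    push_cast at hK
    rwa [Real.sqrt_sq hpR] at hK
  have hle : ((S3 (ZMod p) b c : ℤ) : ℝ) ^ 2 ≤ (2 * √(p : ℝ)) ^ 2 := by
    rw [mul_pow, Real.sq_sqrt hpR]
    have := (abs_le.mp hKb).1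
    linarith
  exact abs_le_of_sq_le_sq hle (by positivity)

end Pool.Agent.SU
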