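import Pool.Agent.helper40.SU.SpecA

set_option autoImplicit false

open Finset

namespace Pool.Agent.SU

lemma QSM_two {F : Type} [Field F] [Fintype F] (hF : ringChar F ≠ 2) : (2 : F) ≠ 0 :=
  Ring.two_ne_zero hF

lemma QSM_zero (F : Type) [Field F] [Fintype F] [DecidableEq F] (_hF : ringChar F ≠ 2) :
    ∑ y : F, quadraticChar F (y ^ 2) = (Fintype.card F : ℤ) - 1 := by
  have h1 : ∀ y : F, quadraticChar F (y ^ 2) = if y = 0 then 0 else 1 := by
    intro y
    split_ifs with h
    · rw [h]; simp
    · exact quadraticChar_sq_one' h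
  simp_rw [h1]
  have h2 : ∀ y : F, (if y = 0 then (0 : ℤ) else 1) = 1 - (if y = 0 then (1 : ℤ) else 0) := by
    intro y; split_ifs <;> simp
  simp_rw [h2, Finset.sum_sub_distrib, Finset.sum_ite_eq']
  simp

lemma QSM_nonzero (F : Type) [Field F] [Fintype F] [DecidableEq F] (hF : ringChar F ≠ 2) (D : F)
    (hD : D ≠ 0) : ∑ y : F, quadraticChar F (y ^ 2 - D) = - 1 := by
  have h2 := QSM_two hF
  have h4 : (4 : F) ≠ 0 := by
    have : (4 : F) = 2 * 2 := by norm_num
    rw [this]; exact mul_ne_zero h2 h2
  have h1 : ∑ y : F, (quadraticChar F (y ^ 2 - D) + 1)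
      = ∑ y : F, ((({z : F | z ^ 2 = y ^ 2 - D}.toFinset).card : ℕ) : ℤ) := by
    refine Finset.sum_congr rfl fun y _ => ?_
    rw [quadraticChar_card_sqrts hF]
  have h3 : ∑ y : F, ((({z : F | z ^ 2 = y ^ 2 - D}.toFinset).card : ℕ) : ℤ)
      = (((univ : Finset F).erase 0).card : ℤ) := by
    rw [← Nat.cast_sum]
    congr 1
    rw [← Finset.card_sigma]
    refine Finset.card_bij' (fun x _ => x.1 - x.2)
      (fun u _ => (⟨(u + D / u) / 2, (D / u - u) / 2⟩ : Sigma fun _ : F => F)) ?_ ?_ ?_ ?_
    · rintro ⟨y, z⟩ hx
      simp only [mem_sigma, mem_univ, Set.mem_toFinset, Set.mem_setOf_eq, true_and] at hx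
      simp only [mem_erase, mem_univ, and_true, ne_eq]
      intro h
      apply hD
      have : y = z := sub_eq_zero.mp h
      rw [this] at hx
      linear_combination hx
    · intro u hu
      simp only [mem_erase, mem_univ, and_true, ne_eq] at hu
      simp only [mem_sigma, mem_univ, Set.mem_toFinset, Set.mem_setOf_eq, true_and]
      field_simp
      ring
    · rintro ⟨y, z⟩ hx
      simp only [mem_sigma, mem_univ, Set.mem_toFinset, Set.mem_setOf_eq, true_and] at hx
      have hne : y - z ≠ 0 := by
        intro h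
        apply hD
        have : y = z := sub_eq_zero.mp h
        rw [this] at hx
        linear_combination hx
      have hq : D / (y - z) = y + z := by
        rw [div_eq_iff hne]
        linear_combination hx
      simp only [hq]
      have e1 : (y - z + (y + z)) / 2 = y := by field_simp; ring
      have e2 : (y + z - (y - z)) / 2 = z := by field_simp; ring
      rw [e1, e2]
    · intro u hu
      simp only [mem_erase, mem_univ, and_true, ne_eq] at hu
      simp only
      field_simp
      ring
  rw [Finset.sum_add_distrib, h3, Finset.card_erase_of_mem (mem_univ _), Finset.card_univ,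
    Finset.sum_const, Finset.card_univ, nsmul_eq_mul, mul_one,
    Nat.cast_sub (Fintype.card_pos)] at h1
  push_cast at h1
  linarith

theorem QSM : QSM_stmt := by
  intro F _ _ _ hF a b c ha
  have h2 := QSM_two hF
  have h4 : (4 : F) ≠ 0 := by
    have : (4 : F) = 2 * 2 := by norm_num
    rw [this]; exact mul_ne_zero h2 h2
  have key : ∑ x : F, quadraticChar F (a * x ^ 2 + b * x + c)
      = quadraticChar F a * ∑ y : F, quadraticChar F (y ^ 2 - (b ^ 2 - 4 * a * c)) := by
    rw [Finset.mul_sum]
    refine Finset.sum_bij' (fun x _ => 2 * a * x + b) (fun y _ => (y - b) / (2 * a)) ?_ ?_ ?_ ?_ ?_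
    · intro x _; exact mem_univ _
    · intro x _; exact mem_univ _
    · intro x _
      field_simp
      ring
    · intro y _
      field_simp
      ring
    · intro x _
      have e : (2 * a * x + b) ^ 2 - (b ^ 2 - 4 * a * c) = 2 ^ 2 * (a * (a * x ^ 2 + b * x + c)) := by
        ring
      rw [e, map_mul, map_mul, quadraticChar_sq_one' h2, one_mul, ← mul_assoc, ← sq,
        quadraticChar_sq_one ha, one_mul]
  constructor
  · intro hD
    rw [key, QSM_nonzero F hF _ hD]
    ring
  · intro hD
    rw [key, hD]
    simp only [sub_zero]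
    rw [QSM_zero F hF]
    ring

end Pool.Agent.SU
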