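import Pool.Agent.helper40.SU.SpecA
import Pool.Agent.helper82.Weil.M

set_option autoImplicit false

open Finset

namespace Pool.Agent.SU

theorem SPL : SPL_stmt := by
  intro F _ _ _ hF b c r hc hr
  set χ : MulChar F ℂ := (quadraticChar F).ringHomComp (Int.castRingHom ℂ) with hχdef
  have hχ : χ ≠ 1 := by
    intro h
    apply quadraticChar_ne_one hF
    apply MulChar.ext
    intro u
    have h1 : χ u = (1 : MulChar F ℂ) u := by rw [h]
    rw [hχdef, MulChar.ringHomComp_apply, MulChar.one_apply_coe] at h1
    rw [MulChar.one_apply_coe]
    simpa using h1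
  have hr0 : r ≠ 0 := by
    intro h
    rw [h] at hr
    apply hc
    linear_combination hr
  have hr' : - b - r ≠ 0 := by
    intro h
    apply hc
    have hb : b = - r := by linear_combination - h
    rw [hb] at hr
    linear_combination hr
  have key := Pool.Agent.helper82.Weil.weil_finset χ hχ (univ : Finset Bool)
    (fun i => if i then r else - b - r) (fun _ => 1) (by
      intro i _
      cases i
      · simpa using hr'
      · simpa using hr0)
  have e : ∀ u : F, u * ∏ i : Bool, (u - (if i then r else - b - r)) ^ 1 = u * (u ^ 2 + b * u + c) := by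
    intro u
    rw [Fintype.prod_bool]
    simp only [if_true, pow_one, Bool.false_eq_true, if_false]
    linear_combination (- u) * hr
  simp_rw [e] at key
  have e2 : ∑ u : F, χ (u * (u ^ 2 + b * u + c)) = ((S3 F b c : ℤ) : ℂ) := by
    unfold S3
    push_cast
    refine Finset.sum_congr rfl fun u _ => ?_
    rw [hχdef, MulChar.ringHomComp_apply]
    rfl
  rw [e2] at key
  rw [Complex.norm_intCast] at key
  simpa using key

end Pool.Agent.SU
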