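import Pool.Agent.helper40.SU.SpecA

set_option autoImplicit false

open Finset

namespace Pool.Agent.SU

theorem SQA : SQA_stmt := by
  intro F _ _ _ hF b c
  have h2 : (2 : F) ≠ 0 := Ring.two_ne_zero hF
  have hL : S3 F b c ^ 2 = ∑ x : F, ∑ y : F, quadraticChar F (Ph b c (x + y) (x * y)) := by
    unfold S3
    rw [sq, Finset.sum_mul_sum]
    refine Finset.sum_congr rfl fun x _ => Finset.sum_congr rfl fun y _ => ?_
    rw [← map_mul]
    congr 1
    unfold Ph
    ring
  have hcnt : ∀ s t : F, (1 + quadraticChar F (s ^ 2 - 4 * t))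
      = ∑ x : F, (if t = s * x - x ^ 2 then (1 : ℤ) else 0) := by
    intro s t
    rw [add_comm, ← quadraticChar_card_sqrts hF, ← Finset.sum_filter, Finset.sum_const,
      nsmul_eq_mul, mul_one]
    congr 1
    refine Finset.card_bij' (fun z _ => (z + s) / 2) (fun x _ => 2 * x - s) ?_ ?_ ?_ ?_
    · intro z hz
      simp only [Set.mem_toFinset, Set.mem_setOf_eq] at hz
      simp only [mem_filter, mem_univ, true_and]
      have h4 : (4 : F) ≠ 0 := by
        have : (4 : F) = 2 * 2 := by norm_num
        rw [this]; exact mul_ne_zero h2 h2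
      have e : (4 : F) * t = 4 * (s * ((z + s) / 2) - ((z + s) / 2) ^ 2) := by
        field_simp
        linear_combination hz
      exact mul_left_cancel₀ h4 e
    · intro x hx
      simp only [mem_filter, mem_univ, true_and] at hx
      simp only [Set.mem_toFinset, Set.mem_setOf_eq]
      rw [hx]; ring
    · intro z _
      field_simp
      ring
    · intro x _
      field_simp
      ring
  rw [hL]
  simp_rw [hcnt, Finset.sum_mul, ite_mul, one_mul, zero_mul]
  rw [Finset.sum_comm]
  have e1 : ∀ s : F, ∑ t : F, ∑ x : F, (if t = s * x - x ^ 2 then quadraticChar F (Ph b c s t) else 0)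
      = ∑ x : F, quadraticChar F (Ph b c s (s * x - x ^ 2)) := by
    intro s
    rw [Finset.sum_comm]
    refine Finset.sum_congr rfl fun x _ => ?_
    rw [Finset.sum_ite_eq']
    simp
  have e2 : ∑ y : F, ∑ x : F, quadraticChar F (Ph b c (x + y) (x * y))
      = ∑ x : F, ∑ y : F, quadraticChar F (Ph b c (x + y) (x * y)) := Finset.sum_comm
  rw [e2]
  symm
  rw [Finset.sum_comm]
  simp_rw [e1]
  rw [Finset.sum_comm]
  refine Finset.sum_congr rfl fun x _ => ?_
  refine Fintype.sum_equiv (Equiv.subRight x) _ _ ?_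
  intro s
  simp only [Equiv.subRight_apply]
  congr 2 <;> ring

end Pool.Agent.SU
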