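import Pool.Agent.helper40.SU.SpecA

set_option autoImplicit false

open Finset

namespace Pool.Agent.SU

theorem SQB (hNRC : NRC_stmt) (hCNT : CNT_stmt) : SQB_stmt := by
  intro p _ K _ _ _ _ hp hK b c
  haveI : CharP K p := charP_of_injective_algebraMap (algebraMap (ZMod p) K).injective p
  set φ := algebraMap (ZMod p) K with hφ
  have hfix : ∀ a : ZMod p, (φ a) ^ p = φ a := by
    intro a
    rw [← map_pow, ZMod.pow_card]
  have hfrob2 : ∀ x : K, (x ^ p) ^ p = x := by
    intro x
    rw [← pow_mul, ← sq, ← hK, FiniteField.pow_card]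
  have hT : ∀ x : K, ∃ t : ZMod p, φ t = x ^ (p + 1) := by
    intro x
    obtain ⟨n, hn, _⟩ := hNRC p K hp hK x
    exact ⟨n, hn⟩
  choose T hT using hT
  have hS : ∀ x : K, ∃ s : ZMod p, φ s = x + x ^ p := by
    intro x
    refine ⟨T (x + 1) - T x - 1, ?_⟩
    rw [map_sub, map_sub, map_one, hT, hT, pow_succ, add_pow_char, one_pow, pow_succ]
    ring
  choose S hS using hS
  have hval : ∀ x : K, quadraticChar K (x * (x ^ 2 + φ b * x + φ c))
      = quadraticChar (ZMod p) (Ph b c (S x) (T x)) := by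
    intro x
    obtain ⟨n, hn, hχ⟩ := hNRC p K hp hK (x * (x ^ 2 + φ b * x + φ c))
    rw [hχ]
    congr 1
    apply φ.injective
    rw [hn, pow_succ, mul_pow, add_pow_char, add_pow_char, mul_pow, hfix, hfix]
    have e1 : (x ^ 2) ^ p = (x ^ p) ^ 2 := by rw [← pow_mul, ← pow_mul, mul_comm]
    rw [e1]
    have e2 : φ (Ph b c (S x) (T x)) = Ph (φ b) (φ c) (φ (S x)) (φ (T x)) := by
      unfold Ph
      simp only [map_mul, map_add, map_sub, map_pow, map_ofNat]
    rw [e2, hS, hT, pow_succ]
    unfold Ph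
    ring
  unfold S3
  simp_rw [hval]
  have hind : ∀ x : K, quadraticChar (ZMod p) (Ph b c (S x) (T x))
      = ∑ t : ZMod p, ∑ s : ZMod p, (if (x + x ^ p = φ s ∧ x ^ (p + 1) = φ t) then
          quadraticChar (ZMod p) (Ph b c s t) else 0) := by
    intro x
    have : ∀ s t : ZMod p, (x + x ^ p = φ s ∧ x ^ (p + 1) = φ t) ↔ (s = S x ∧ t = T x) := by
      intro s t
      rw [← hS, ← hT, φ.injective.eq_iff, φ.injective.eq_iff]
      constructor
      · rintro ⟨h1, h2⟩; exact ⟨h1.symm, h2.symm⟩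
      · rintro ⟨h1, h2⟩; exact ⟨h1.symm, h2.symm⟩
    simp_rw [this]
    rw [Finset.sum_eq_single (T x)]
    · rw [Finset.sum_eq_single (S x)]
      · simp
      · intro s _ hs
        rw [if_neg]; rintro ⟨h, _⟩; exact hs h
      · intro h; exact absurd (mem_univ _) h
    · intro t _ ht
      apply Finset.sum_eq_zero
      intro s _
      rw [if_neg]; rintro ⟨_, h⟩; exact ht h
    · intro h; exact absurd (mem_univ _) h
  rw [Finset.sum_congr rfl fun x _ => hind x, Finset.sum_comm]
  refine Finset.sum_congr rfl fun t _ => ?_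
  rw [Finset.sum_comm]
  refine Finset.sum_congr rfl fun s _ => ?_
  rw [← Finset.sum_filter, Finset.sum_const, nsmul_eq_mul, hCNT p K hp hK s t]

end Pool.Agent.SU
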