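import Pool.Agent.helper40.SU.SpecA

set_option autoImplicit false

open Finset

namespace Pool.Agent.SU

theorem TTT (hQSM : QSM_stmt) : TTT_stmt := by
  intro F _ _ _ hF b c hc hD
  have h1 : ∀ t : F, ∑ s : F, quadraticChar F (Ph b c s t)
      = - (quadraticChar F t * quadraticChar F c) + (if t = c then (Fintype.card F : ℤ) else 0) := by
    intro t
    have hPh : ∀ s : F, Ph b c s t = (t * c) * s ^ 2 + (t * (b * (t + c))) * s
        + t * (t ^ 2 - 2 * c * t + b ^ 2 * t + c ^ 2) := by
      intro s; unfold Ph; ring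
    by_cases ht : t = 0
    · subst ht
      have : ∀ s : F, quadraticChar F (Ph b c s 0) = 0 := by
        intro s
        have : Ph b c s 0 = 0 := by unfold Ph; ring
        rw [this]; simp
      simp_rw [this]
      rw [if_neg (Ne.symm hc)]
      simp
    · have key := hQSM F hF (t * c) (t * (b * (t + c)))
        (t * (t ^ 2 - 2 * c * t + b ^ 2 * t + c ^ 2)) (mul_ne_zero ht hc)
      have hdisc : (t * (b * (t + c))) ^ 2 - 4 * (t * c) * (t * (t ^ 2 - 2 * c * t + b ^ 2 * t + c ^ 2))
          = t ^ 2 * ((t - c) ^ 2 * (b ^ 2 - 4 * c)) := by ring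
      rw [hdisc] at key
      simp_rw [hPh]
      by_cases htc : t = c
      · rw [if_pos htc]
        rw [key.2 (by rw [htc]; ring)]
        rw [htc]
        rw [map_mul]
        have : quadraticChar F c * quadraticChar F c = 1 := by
          rw [← sq]; exact quadraticChar_sq_one hc
        rw [this]; ring
      · rw [if_neg htc]
        rw [key.1 (mul_ne_zero (pow_ne_zero 2 ht)
          (mul_ne_zero (pow_ne_zero 2 (sub_ne_zero.mpr htc)) hD))]
        rw [map_mul]; ring
  simp_rw [h1]
  rw [Finset.sum_add_distrib, Finset.sum_neg_distrib, ← Finset.sum_mul, quadraticChar_sum_zero hF,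
    Finset.sum_ite_eq']
  simp

end Pool.Agent.SU
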